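import Pool.Agent.H657.CL.MainN

set_option autoImplicit false
set_option linter.style.haveILetI false

/-!
# The countable-or-perfect dichotomy for actions with complete stabilisers

A topological group is cli if its topology is induced by a complete left-invariant metric.
We prove the dichotomy for every Borel action of an arbitrary Polish group `G` for which, outside
countably many orbits, the stabilisers are cli. More generally, let `N` be a closed normal subgroup
of `G` whose orbit equivalence relation is Borel; then it is enough that, outside countably many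
orbits, the images of the stabilisers in `G / N` are cli. For `N = 1` this generalises Becker's
theorem from cli groups to cli stabilisers, and for `N = G` it is Silver's theorem for Borel orbit
equivalence relations.

Outline. Suppose that there is no perfect set of inequivalent points.
* (`H657.CL.Alg`) There are countable algebras `A` of Borel sets which are closed under Vaught
  transforms and form a basis of a Polish topology.
* (`H657.CL.Gen`) Each class of the Borel equivalence relation given by the invariant members of `A`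
  contains a point `x` with a nonmeagre orbit. Each point `z` in the class can be moved towards `x`
  by a right Cauchy sequence of group elements.
* (`H657.CL.Cap`) For every Borel set of pairs, the algebra `A` can be chosen such that the Vaught
  transforms of all the sections are unions of Vaught transforms of members of `A`. This uses
  Silver's theorem for a Borel equivalence relation that compares pieces of orbits.
* (`H657.CL.Rel`) If the images of the stabilisers are cli, then by a reflection argument, based on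
  Novikov's separation theorem, `z` and `x` are in the same orbit for suitable `A`. So there are only
  countably many orbits.

Silver's theorem for Borel equivalence relations, Novikov's theorem, Mycielski's theorem and the
category of analytic sets with meagre sections are taken from the library.
-/

namespace Pool.Agent.Results.MP_5607ba_lc.CompleteStabilisers

open Set Filter Topology

/-- The topology of the group is induced by a complete left-invariant metric. -/
def IsCli (H : Type) [t : TopologicalSpace H] [Group H] : Prop :=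
  ∃ d : MetricSpace H, d.toUniformSpace.toTopologicalSpace = t ∧
    @CompleteSpace H d.toUniformSpace ∧ ∀ g a b : H, d.dist (g * a) (g * b) = d.dist a b

/-- The image of the stabiliser of `x` in `G ⧸ N`. -/
def stabiliserModulo {G X : Type} [Group G] [MulAction G X] (N : Subgroup G) [N.Normal] (x : X) :
    Subgroup (G ⧸ N) :=
  (MulAction.stabilizer G x).map (QuotientGroup.mk' N)

section aux

variable {G : Type} [TopologicalSpace G] [Group G] [IsTopologicalGroup G]
variable {X : Type} [MulAction G X]

theorem complete_of_isCli (N : Subgroup G) [N.Normal] (x : X)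
    (h : IsCli (stabiliserModulo N x)) (s : ℕ → G) (hs : ∀ n, s n • x = x)
    (hc : ∀ O : Set G, IsOpen O → 1 ∈ O → ∃ j, ∀ n ≥ j, ∀ k ≥ j, s n * (s k)⁻¹ ∈ O) :
    ∃ g, g • x = x ∧ ∀ O : Set G, IsOpen O → 1 ∈ O →
      ∃ j, ∀ n ≥ j, s n * g⁻¹ ∈ Pool.Agent.H657.CL.Sm N O := by
  obtain ⟨d, hd, hcomp, hinv⟩ := h
  let H := stabiliserModulo N x
  have hmem : ∀ n, QuotientGroup.mk' N (s n) ∈ stabiliserModulo N x := fun n => ⟨s n, hs n, rfl⟩
  let t : ℕ → H := fun n => (⟨QuotientGroup.mk' N (s n), hmem n⟩ : H)⁻¹
  have hcau : ∀ ε > 0, ∃ j, ∀ n ≥ j, ∀ k ≥ j, d.dist (t n) (t k) < ε := by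
    intro ε hε
    have h1 : IsOpen {a : H | d.dist 1 a < ε} := by
      have h2 : @IsOpen H d.toUniformSpace.toTopologicalSpace {a : H | d.dist 1 a < ε} := by
        have h3 := @Metric.isOpen_ball H d.toPseudoMetricSpace 1 ε
        convert h3 using 1
        ext a
        show d.dist 1 a < ε ↔ d.dist a 1 < ε
        rw [d.dist_comm]
      rwa [hd] at h2
    obtain ⟨O, hO, hO2⟩ := isOpen_induced_iff.1 h1
    have h4 : IsOpen ((QuotientGroup.mk : G → G ⧸ N) ⁻¹' O) :=
      hO.preimage QuotientGroup.continuous_mk
    have h5 : (1 : G) ∈ (QuotientGroup.mk : G → G ⧸ N) ⁻¹' O := by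
      have : (1 : H) ∈ Subtype.val ⁻¹' O := by
        rw [hO2]
        show d.dist 1 1 < ε
        rw [d.dist_self]
        exact hε
      exact this
    obtain ⟨j, hj⟩ := hc _ h4 h5
    refine ⟨j, fun n hn k hk => ?_⟩
    have h6 : (t n)⁻¹ * t k ∈ {a : H | d.dist 1 a < ε} := by
      rw [← hO2]
      have h7 := hj n hn k hk
      have h8 : (((t n)⁻¹ * t k : H) : G ⧸ N) = QuotientGroup.mk (s n * (s k)⁻¹) := by
        simp [t]
      show (((t n)⁻¹ * t k : H) : G ⧸ N) ∈ O
      rw [h8]
      exact h7
    have h9 := hinv (t n) 1 ((t n)⁻¹ * t k)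
    rw [mul_one, mul_inv_cancel_left] at h9
    rw [h9]
    exact h6
  obtain ⟨u, hu⟩ : ∃ u : H, ∀ ε > 0, ∃ j, ∀ n ≥ j, d.dist (t n) u < ε := by
    letI := d
    have h1 : CauchySeq t := Metric.cauchySeq_iff.2 (fun ε hε => by
      obtain ⟨j, hj⟩ := hcau ε hε
      exact ⟨j, fun n hn k hk => hj n hn k hk⟩)
    obtain ⟨u, hu⟩ := cauchySeq_tendsto_of_complete h1
    exact ⟨u, fun ε hε => Metric.tendsto_atTop.1 hu ε hε⟩
  obtain ⟨g, hg, hgu⟩ := (u⁻¹ : H).2
  refine ⟨g, hg, ?_⟩
  intro O hO h1O
  have h1 : IsOpen ((QuotientGroup.mk : G → G ⧸ N) '' O) := QuotientGroup.isOpenMap_coe _ hO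
  have h2 : IsOpen ((fun a : H => ((a⁻¹ : H) : G ⧸ N) * (u : G ⧸ N)) ⁻¹'
      ((QuotientGroup.mk : G → G ⧸ N) '' O)) := by
    refine h1.preimage ?_
    exact (continuous_subtype_val.comp continuous_inv).mul continuous_const
  have h3 : u ∈ (fun a : H => ((a⁻¹ : H) : G ⧸ N) * (u : G ⧸ N)) ⁻¹'
      ((QuotientGroup.mk : G → G ⧸ N) '' O) := by
    refine ⟨1, h1O, ?_⟩
    simp
  have h4 : ∃ ε > 0, ∀ a : H, d.dist a u < ε →
      a ∈ (fun a : H => ((a⁻¹ : H) : G ⧸ N) * (u : G ⧸ N)) ⁻¹'
      ((QuotientGroup.mk : G → G ⧸ N) '' O) := by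
    rw [← hd] at h2
    letI := d
    obtain ⟨ε, hε, h5⟩ := Metric.isOpen_iff.1 h2 u h3
    exact ⟨ε, hε, fun a ha => h5 ha⟩
  obtain ⟨ε, hε, h5⟩ := h4
  obtain ⟨j, hj⟩ := hu ε hε
  refine ⟨j, fun n hn => ?_⟩
  obtain ⟨v, hv, hv2⟩ := h5 _ (hj n hn)
  refine ⟨v, hv, ?_⟩
  rw [← QuotientGroup.eq]
  have h6 : ((g : G) : G ⧸ N) = ((u⁻¹ : H) : G ⧸ N) := hgu
  rw [hv2]
  simp [t, h6]

end aux

/-- The exceptional orbits are left out. -/
theorem result (G : Type) [TopologicalSpace G] [Group G] [IsTopologicalGroup G] [PolishSpace G]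
    [MeasurableSpace G] [BorelSpace G]
    (X : Type) [MeasurableSpace X] [StandardBorelSpace X]
    [MulAction G X] [MeasurableSMul₂ G X]
    (N : Subgroup G) [N.Normal] (hN : IsClosed (N : Set G))
    (hE : MeasurableSet {p : X × X | ∃ n ∈ N, n • p.1 = p.2})
    (S : Set X) (hS : S.Countable)
    (hcli : ∀ x : X, (∀ s ∈ S, ∀ g : G, g • s ≠ x) → IsCli (stabiliserModulo N x)) :
    Countable (Quotient (MulAction.orbitRel G X)) ∨
      ∃ f : (ℕ → Bool) → X, Measurable f ∧
        ∀ x y : ℕ → Bool, x ≠ y → ¬ ∃ g : G, g • f x = f y := by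
  let B : Set X := {x | ∀ s ∈ S, ∀ g : G, g • s ≠ x}
  have hBm : MeasurableSet B := by
    have h1 : B = ⋂ s ∈ S, {x : X | ∃ g : G, g • s = x}ᶜ := by
      ext x
      simp only [mem_iInter]
      constructor
      · rintro hx s hs ⟨g, hg⟩
        exact hx s hs g hg
      · intro hx s hs g hg
        exact hx s hs ⟨g, hg⟩
    rw [h1]
    exact MeasurableSet.biInter hS fun s _ => (Pool.Agent.H657.CL.orbit_meas s).compl
  have hBi : ∀ (g : G) (x : X), x ∈ B → g • x ∈ B := by
    intro g x hx s hs k hk
    refine hx s hs (g⁻¹ * k) ?_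
    rw [mul_smul, hk, inv_smul_smul]
  haveI : StandardBorelSpace B := hBm.standardBorel
  letI : MulAction G B :=
    { smul := fun g x => ⟨g • x.1, hBi g x.1 x.2⟩
      one_smul := fun x => Subtype.ext (one_smul G x.1)
      mul_smul := fun g h x => Subtype.ext (mul_smul g h x.1) }
  have hval : ∀ (g : G) (x : B), ((g • x : B) : X) = g • (x : X) := fun g x => rfl
  haveI : MeasurableSMul₂ G B := by
    refine ⟨?_⟩
    refine Measurable.subtype_mk ?_
    exact measurable_fst.smul (measurable_subtype_coe.comp measurable_snd)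
  have hE' : MeasurableSet {p : B × B | ∃ n ∈ N, n • p.1 = p.2} := by
    have h1 : Measurable fun p : B × B => ((p.1 : X), (p.2 : X)) := by fun_prop
    convert hE.preimage h1 using 1
    ext p
    constructor
    · rintro ⟨n, hn, h2⟩
      exact ⟨n, hn, congrArg Subtype.val h2⟩
    · rintro ⟨n, hn, h2⟩
      exact ⟨n, hn, Subtype.ext h2⟩
  have hst : Pool.Agent.H657.CL.CStabN N B := by
    rintro ⟨x, hx⟩ s hs hc
    obtain ⟨g, hg, h1⟩ := complete_of_isCli N x (hcli x hx) s
      (fun n => congrArg Subtype.val (hs n)) hc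
    exact ⟨g, Subtype.ext hg, h1⟩
  rcases Pool.Agent.H657.CL.mainN N hN hE' hst with h | ⟨f, hf, hf2⟩
  · left
    have hSc : Countable S := hS.to_subtype
    let φ : (Quotient (MulAction.orbitRel G B)) ⊕ S → Quotient (MulAction.orbitRel G X) :=
      Sum.elim (Quotient.lift (fun x : B => Quotient.mk (MulAction.orbitRel G X) x.1) (by
        rintro a b ⟨g, hg⟩
        exact Quotient.sound ⟨g, congrArg Subtype.val hg⟩))
        (fun s => Quotient.mk (MulAction.orbitRel G X) s.1)
    refine Function.Surjective.countable (f := φ) ?_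
    intro q
    induction q using Quotient.inductionOn with
    | h x =>
      by_cases hx : x ∈ B
      · exact ⟨Sum.inl (Quotient.mk _ ⟨x, hx⟩), rfl⟩
      · have hx' : ∃ s ∈ S, ∃ g : G, g • s = x := by
          by_contra hc
          push Not at hc
          exact hx hc
        obtain ⟨s, hs, g, hg⟩ := hx'
        refine ⟨Sum.inr ⟨s, hs⟩, Quotient.sound ⟨g⁻¹, ?_⟩⟩
        show g⁻¹ • x = s
        rw [← hg, inv_smul_smul]
  · right
    refine ⟨fun b => (f b : X), measurable_subtype_coe.comp hf, ?_⟩
    rintro b b' hb ⟨g, hg⟩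
    exact hf2 b b' hb ⟨g, Subtype.ext hg⟩

end Pool.Agent.Results.MP_5607ba_lc.CompleteStabilisers
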