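import Pool.Agent.H642.KK.Fin

set_option autoImplicit false

/-!
The countable-or-perfect dichotomy for the conjugation actions of the Polish groups `Homeo(K)`,
`K` any zero-dimensional compact metrizable space: if `K` has finitely many limit points, then the
dichotomy holds; if `K` has infinitely many limit points, then it is equivalent to the dichotomy for
all logic actions of `Sym(ℕ)`.
-/

namespace Pool.Agent.Results.MP_5607ba_lc.HomeomorphismsOfCompactSpaces

/-- Relational structures on `ℕ` with relations of arities `a 0, a 1, ...`. -/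
abbrev Str (a : ℕ → ℕ) : Type := (i : ℕ) → (Fin (a i) → ℕ) → Bool

/-- Isomorphism: the orbit equivalence relation of the action of `Sym(ℕ)` by relabelling. -/
def Iso {a : ℕ → ℕ} (x y : Str a) : Prop :=
  ∃ σ : Equiv.Perm ℕ, ∀ (i : ℕ) (v : Fin (a i) → ℕ), y i (⇑σ ∘ v) = x i v

/-- The Borel structure of `Homeo(K)`: the σ-algebra generated by the evaluation maps `f ↦ f x`
into `K` with its Borel sets. -/
instance evaluationBorel (K : Type) [TopologicalSpace K] : MeasurableSpace (K ≃ₜ K) :=
  MeasurableSpace.comap (fun f => (f : K → K)) (@MeasurableSpace.pi K (fun _ => K) fun _ => borel K)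

/-- Topological conjugacy: the orbit equivalence relation of the conjugation action of `Homeo(K)` on
itself. -/
def Conj {K : Type} [TopologicalSpace K] (f g : K ≃ₜ K) : Prop :=
  ∃ h : K ≃ₜ K, ∀ x, h (f x) = g (h x)

/-- The countable-or-perfect dichotomy for the equivalence relation `E`: for every `E`-invariant
Borel set `B`, countably many classes meet `B`, or some Borel map from the Cantor space to `B`
sends distinct points to inequivalent points. -/
def Dichotomy {Y : Type} [MeasurableSpace Y] (E : Y → Y → Prop) : Prop :=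
  ∀ B : Set Y, MeasurableSet B → (∀ y z, E y z → (y ∈ B ↔ z ∈ B)) →
    (∃ f : ℕ → Y, ∀ y ∈ B, ∃ n, E (f n) y) ∨
    (∃ g : (ℕ → Bool) → Y, Measurable g ∧ (∀ c, g c ∈ B) ∧ ∀ c d, E (g c) (g d) → c = d)

/-- `E` is faithfully complete: every isomorphism-invariant Borel class `B` of countable structures,
in any countable relational language, is represented by an `E`-invariant Borel set `B'`. The Borel
map `F` sends `B'` to `B`, equivalent points of `B'` and only these have isomorphic images, and
every member of `B` is isomorphic to an image. -/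
def FaithfullyComplete {Y : Type} [MeasurableSpace Y] (E : Y → Y → Prop) : Prop :=
  ∀ (a : ℕ → ℕ) (B : Set (Str a)), MeasurableSet B → (∀ x y, Iso x y → (x ∈ B ↔ y ∈ B)) →
    ∃ (B' : Set Y) (F : Y → Str a), MeasurableSet B' ∧ (∀ y z, E y z → (y ∈ B' ↔ z ∈ B')) ∧
      Measurable F ∧ (∀ y ∈ B', F y ∈ B) ∧
      (∀ y ∈ B', ∀ z ∈ B', E y z ↔ Iso (F y) (F z)) ∧ ∀ x ∈ B, ∃ y ∈ B', Iso x (F y)

/-- Let `K` be a zero-dimensional compact metrizable space. If `K` has finitely many limit points,
then the dichotomy holds for the conjugation action of `Homeo(K)`. If `K` has infinitely many limit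
points, then topological conjugacy of homeomorphisms of `K` is faithfully complete, and the
dichotomy for it is equivalent to the dichotomy for isomorphism of countable structures in all
countable relational languages. -/
theorem result (K : Type) [TopologicalSpace K] [CompactSpace K] [T2Space K]
    [SecondCountableTopology K] [TotallyDisconnectedSpace K] :
    ({x : K | ¬ IsOpen {x}}.Finite → Dichotomy (Conj (K := K))) ∧
    ({x : K | ¬ IsOpen {x}}.Infinite → FaithfullyComplete (Conj (K := K)) ∧
      (Dichotomy (Conj (K := K)) ↔ ∀ a : ℕ → ℕ, Dichotomy (Iso (a := a)))) := by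
  refine ⟨fun h B hB hi => ?_, fun h => ?_⟩
  · exact Pool.Agent.H642.KK.s_fin K h B hB hi fun _ _ => trivial
  · have h1 : FaithfullyComplete (Conj (K := K)) := by
      intro a B hB hi
      obtain ⟨B', F, k1, k2, k3, k4⟩ := Pool.Agent.H642.KK.s_inf K h a B hB hi
      exact ⟨B', F, k1, k2, k4⟩
    refine ⟨h1, fun hD a B hB hinv => ?_, fun hD B hB hi => ?_⟩
    · obtain ⟨B', F, k1, k2, k4, k5, k6, k7⟩ := h1 a B hB hinv
      rcases hD B' k1 k2 with ⟨f, hf⟩ | ⟨g, g1, g2, g3⟩
      · left
        refine ⟨fun n => F (f n), fun x hx => ?_⟩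
        obtain ⟨y, hy, σ, hσ⟩ := k7 x hx
        obtain ⟨n, hn⟩ := hf y hy
        have hfn : f n ∈ B' := (k2 _ _ hn).2 hy
        obtain ⟨τ, hτ⟩ := (k6 _ hfn _ hy).1 hn
        refine ⟨n, σ⁻¹ * τ, fun i v => ?_⟩
        have e1 := hτ i v
        have e2 := hσ i (⇑(σ⁻¹ * τ) ∘ v)
        rw [← e2]
        refine Eq.trans ?_ e1
        congr 1
        funext j
        simp
      · right
        exact ⟨fun c => F (g c), k4.comp g1, fun c => k5 _ (g2 c), fun c d h =>
          g3 c d ((k6 _ (g2 c) _ (g2 d)).2 h)⟩
    · have hK : Infinite K := by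
        by_contra hcon
        rw [not_infinite_iff_finite] at hcon
        exact h (Set.toFinite _)
      exact Pool.Agent.H642.KK.s_conv K (fun a B hB hi _ => hD a B hB hi) B hB hi
        fun _ _ => trivial

end Pool.Agent.Results.MP_5607ba_lc.HomeomorphismsOfCompactSpaces
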