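import Pool.Agent.H642.LP.Final

set_option autoImplicit false

/-!
The countable-or-perfect dichotomy for the Polish group of the homeomorphisms of the real line, and
for its subgroup of the orientation preserving homeomorphisms, acting on the sequences of closed
locally piecewise monotone relations on the line.
-/

open Set TopologicalSpace MeasureTheory

namespace Pool.Agent.Results.MP_5607ba_lc.PiecewiseMonotoneOnTheLine

/-- Sequences of closed binary relations on the line, that is, of closed subsets of the plane. -/
abbrev Space : Type := ℕ → Closeds (ℝ × ℝ)

/-- The Effros Borel structure: it is generated by the sets of the sequences whose `n`-th member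
meets the open set `U`. -/
@[reducible] def borelSpace : MeasurableSpace Space :=
  MeasurableSpace.generateFrom
    {S | ∃ (n : ℕ) (U : Set (ℝ × ℝ)), IsOpen U ∧
      S = {x : Space | ((x n : Set (ℝ × ℝ)) ∩ U).Nonempty}}

/-- `x` and `y` are in one orbit of the group `Γ` of homeomorphisms of the line: some member `g` of
`Γ` maps each relation of `x` onto the corresponding relation of `y`. -/
def SameOrbit (Γ : Subgroup (ℝ ≃ₜ ℝ)) (x y : Space) : Prop :=
  ∃ g ∈ Γ, ∀ n, (y n : Set (ℝ × ℝ)) = (fun p : ℝ × ℝ => (g p.1, g p.2)) '' (x n : Set (ℝ × ℝ))

/-- The relation is nondecreasing or nonincreasing over the open interval between `u` and `v`: when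
the first coordinate grows within this interval, then the second coordinate does not decrease, or it
does not increase. -/
def MonotoneOver (S : Closeds (ℝ × ℝ)) (u v : ℝ) : Prop :=
  (∀ p ∈ S, ∀ q ∈ S, u < p.1 → p.1 < q.1 → q.1 < v → p.2 ≤ q.2) ∨
  (∀ p ∈ S, ∀ q ∈ S, u < p.1 → p.1 < q.1 → q.1 < v → q.2 ≤ p.2)

/-- The relation is locally piecewise monotone: each point of the line is the right end point of an
interval over which the relation is monotone, and the left end point of such an interval. (By
compactness, each bounded interval is then a union of finitely many points and finitely many open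
intervals over which the relation is monotone.) -/
def LocallyPiecewiseMonotone (S : Closeds (ℝ × ℝ)) : Prop :=
  ∀ t : ℝ, ∃ ε > 0, MonotoneOver S (t - ε) t ∧ MonotoneOver S t (t + ε)

/-- Let `Γ` be the group of all homeomorphisms of the line, or the group of its orientation
preserving homeomorphisms (these are the only subgroups which contain all increasing
homeomorphisms), acting diagonally on the sequences of closed relations on the line. Every invariant
Borel set of sequences of locally piecewise monotone closed relations contains countably many
orbits, or there is a Borel map from the Cantor space into it that sends different points to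
different orbits. -/
theorem result (Γ : Subgroup (ℝ ≃ₜ ℝ)) (hΓ : ∀ g : ℝ ≃ₜ ℝ, StrictMono g → g ∈ Γ)
    (B : Set Space) (hB : MeasurableSet[borelSpace] B)
    (hm : ∀ x ∈ B, ∀ n, LocallyPiecewiseMonotone (x n))
    (hE : ∀ x ∈ B, ∀ y, SameOrbit Γ x y → y ∈ B) :
    (∃ f : ℕ → Space, ∀ x ∈ B, ∃ n, SameOrbit Γ (f n) x) ∨
    (∃ c : (ℕ → Bool) → Space, Measurable[inferInstance, borelSpace] c ∧ (∀ a, c a ∈ B) ∧
      ∀ a b, SameOrbit Γ (c a) (c b) → a = b) :=
  Pool.Agent.H642.LP.mainL hΓ B hB (fun x hx n => hm x hx n) (fun x hx y h => hE x hx y h)

end Pool.Agent.Results.MP_5607ba_lc.PiecewiseMonotoneOnTheLine
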