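import Pool.Agent.H669.TM.Top

set_option autoImplicit false

/-!
# Expansions of a fixed countable torsion module

Let `R` be a countable principal ideal domain and `M` a countable torsion `R`-module (for instance
a countable torsion abelian group). The logic actions of the Polish group `Aut(M)` are the actions
on the structures that expand an isomorphic copy of `M`. We determine for which `M` the
countable-or-perfect dichotomy for these actions is as hard as the dichotomy for all actions of
`Sym(ℕ)` on countable structures; in all other cases we prove it.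

* If, for all primes `p` of `R`, the socle `M[p]` is finitely generated (for an abelian group:
  finite), then the dichotomy holds for every invariant Borel class of expansions of `M` by
  relations of arbitrary arities.
* If `M[p]` is not finitely generated for some prime `p`, then the expansions of `M` by two binary
  relations are faithfully complete: they contain all isomorphism-invariant Borel classes of
  countable structures up to Borel bijections of the isomorphism types.

The first alternative holds if and only if all pointwise limits of automorphisms of `M` are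
automorphisms, that is, if the Polish group `Aut(M)` has a complete left-invariant metric.

The new point is the second alternative. If `M[p]` is not finitely generated, then either `M` has a
divisible submodule of infinite rank, or for every finitely generated submodule `F` there is a
non-zero cyclic direct summand with a projection which vanishes on `F`. In both cases there are
infinitely many independent elements `e₀, e₁, …` of `M[p]` and transvections `e_m ↦ e_m + e_j` (for
`m < j`) of `M` which fix the other `e_i`, such that every element of `M` is fixed by almost all of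
them. So in the group of the automorphisms of `M` which preserve the integral span `V` of the `e_i`
only finitely many elements of `V / lV` are algebraic over a finite subset of `M`, where `l > 1` is
zero in the residue field or its characteristic is zero. A generic colouring of `V / lV` has the
property that every permutation of the colours is induced by an automorphism of `M`.
-/

namespace Pool.Agent.Results.MP_5607ba_lc.TorsionModules

/-- Structures on `ℕ` with relations indexed by `ι`; the relation `i` has arity `a i`. -/
abbrev Str {ι : Type} (a : ι → ℕ) : Type := (i : ι) → (Fin (a i) → ℕ) → Bool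

/-- Isomorphism of structures. -/
def Iso {ι : Type} {a : ι → ℕ} (x y : Str a) : Prop :=
  ∃ σ : Equiv.Perm ℕ, ∀ (i : ι) (v : Fin (a i) → ℕ), y i (⇑σ ∘ v) = x i v

/-- The arities of the relations `u + v = w` (index `none`) and `r u = w` (index `some r`). -/
def arity (R : Type) : Option R → ℕ
  | none => 3
  | some _ => 2

/-- The bijection `b` is an isomorphism of the `R`-module `M` onto the structure `x` on `ℕ`. -/
def IsCopy {R M : Type} [CommRing R] [AddCommGroup M] [Module R M] (x : Str (arity R))
    (b : M ≃ ℕ) : Prop :=
  (∀ u v w : M, x none ![b u, b v, b w] = true ↔ u + v = w) ∧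
  ∀ (r : R) (u w : M), x (some r) ![b u, b w] = true ↔ r • u = w

/-- A structure in the language of `R`-modules together with a structure on the same set. -/
abbrev Expansion (R : Type) {ι : Type} (a : ι → ℕ) : Type := Str (arity R) × Str a

/-- Isomorphism of expansions. -/
def ExpansionIso {R ι : Type} {a : ι → ℕ} (y z : Expansion R a) : Prop :=
  ∃ σ : Equiv.Perm ℕ, (∀ i v, z.1 i (⇑σ ∘ v) = y.1 i v) ∧ ∀ i v, z.2 i (⇑σ ∘ v) = y.2 i v

/-- `y` is an expansion of a copy of the module `M`. -/
def Expands (R M : Type) [CommRing R] [AddCommGroup M] [Module R M] {ι : Type} {a : ι → ℕ}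
    (y : Expansion R a) : Prop :=
  ∃ b : M ≃ ℕ, IsCopy y.1 b

/-- For every prime `p` the submodule of the elements `x` with `p x = 0` is finitely generated. -/
def SmallSocles (R M : Type) [CommRing R] [AddCommGroup M] [Module R M] : Prop :=
  ∀ p : R, Prime p → (Submodule.torsionBy R M p).FG

/-- All pointwise limits of automorphisms of the module `M` are onto. -/
def LimitsOnto (R M : Type) [CommRing R] [AddCommGroup M] [Module R M] : Prop :=
  ∀ f : M → M, (∀ F : Finset M, ∃ g : M ≃ₗ[R] M, ∀ x ∈ F, g x = f x) → Function.Surjective f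

/-- The countable-or-perfect dichotomy for the members of `K`: every Borel class of members of `K`,
invariant under `E`, has countably many `E`-classes or contains a continuous family, indexed by the
Cantor space, of pairwise inequivalent members. -/
def Dichotomy {X : Type} [TopologicalSpace X] [MeasurableSpace X] (E : X → X → Prop)
    (K : X → Prop) : Prop :=
  ∀ B : Set X, MeasurableSet B → (∀ x y, E x y → (x ∈ B ↔ y ∈ B)) → (∀ x ∈ B, K x) →
    (∃ f : ℕ → X, ∀ x ∈ B, ∃ n, E (f n) x) ∨
    (∃ g : (ℕ → Bool) → X, Continuous g ∧ (∀ c, g c ∈ B) ∧ ∀ c d, E (g c) (g d) → c = d)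

/-- `K` is faithfully complete: for every invariant Borel class `B` of structures (in any countable
relational language) there are an invariant Borel class `B'` of members of `K` and a Borel map `F`
from `B'` to `B` that induces a bijection of the isomorphism types. -/
def FaithfullyComplete {Y : Type} [MeasurableSpace Y] (E : Y → Y → Prop) (K : Y → Prop) : Prop :=
  ∀ (b : ℕ → ℕ) (B : Set (Str b)), MeasurableSet B → (∀ x y, Iso x y → (x ∈ B ↔ y ∈ B)) →
    ∃ (B' : Set Y) (F : Y → Str b), MeasurableSet B' ∧ (∀ y z, E y z → (y ∈ B' ↔ z ∈ B')) ∧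
      (∀ y ∈ B', K y) ∧ Measurable F ∧ (∀ y ∈ B', F y ∈ B) ∧
      (∀ y ∈ B', ∀ z ∈ B', E y z ↔ Iso (F y) (F z)) ∧ ∀ x ∈ B, ∃ y ∈ B', Iso x (F y)

private theorem pv {X : Type} [TopologicalSpace X] [MeasurableSpace X] (E : X → X → Prop)
    (K : X → Prop) : Dichotomy E K ↔ Pool.Agent.W889.VC.VCof True E K := by
  constructor
  · intro h B h1 h2 h3
    rcases h B h1 h2 h3 with ⟨f, hf⟩ | ⟨g, h3, h4, h5⟩
    · exact Or.inl ⟨f, hf⟩
    · exact Or.inr ⟨g, fun _ => h3, h4, h5⟩
  · intro h B h1 h2 h3
    rcases h B h1 h2 h3 with ⟨f, hf⟩ | ⟨g, h3, h4, h5⟩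
    · exact Or.inl ⟨f, hf⟩
    · exact Or.inr ⟨g, h3 trivial, h4, h5⟩

section

variable {R M : Type} [CommRing R] [AddCommGroup M] [Module R M]

private theorem comp2' (σ : Equiv.Perm ℕ) (m n : ℕ) : ⇑σ ∘ ![m, n] = ![σ m, σ n] := by
  funext i
  fin_cases i <;> rfl

private theorem comp3' (σ : Equiv.Perm ℕ) (m n k : ℕ) :
    ⇑σ ∘ ![m, n, k] = ![σ m, σ n, σ k] := by
  funext i
  fin_cases i <;> rfl

private theorem copy_of_iso {x y : Str (arity R)} {b : M ≃ ℕ} {σ : Equiv.Perm ℕ}
    (hx : IsCopy x b) (h : ∀ i v, y i (⇑σ ∘ v) = x i v) : IsCopy (R := R) y (b.trans σ) := by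
  refine ⟨fun u v w => ?_, fun r u w => ?_⟩
  · have h1 : y none (![σ (b u), σ (b v), σ (b w)] : Fin 3 → ℕ) =
        x none (![b u, b v, b w] : Fin 3 → ℕ) :=
      (congrArg (y none) (comp3' σ (b u) (b v) (b w)).symm).trans (h none _)
    rw [← hx.1 u v w, ← h1]
    rfl
  · have h1 : y (some r) (![σ (b u), σ (b w)] : Fin 2 → ℕ) =
        x (some r) (![b u, b w] : Fin 2 → ℕ) :=
      (congrArg (y (some r)) (comp2' σ (b u) (b w)).symm).trans (h (some r) _)
    rw [← hx.2 r u w, ← h1]
    rfl

private theorem iso_of_copy {x y : Str (arity R)} {b c : M ≃ ℕ} (hx : IsCopy x b)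
    (hy : IsCopy (R := R) y c) : ∀ i v, y i (⇑(b.symm.trans c) ∘ v) = x i v := by
  intro i v
  rcases i with _ | r
  · obtain ⟨u, hu⟩ := b.surjective (v (0 : Fin 3))
    obtain ⟨u', hu'⟩ := b.surjective (v (1 : Fin 3))
    obtain ⟨w, hw⟩ := b.surjective (v (2 : Fin 3))
    have hv : v = (![b u, b u', b w] : Fin 3 → ℕ) := by
      rw [hu, hu', hw]
      funext i
      change Fin 3 at i
      fin_cases i <;> rfl
    rw [hv, Bool.eq_iff_iff, hx.1]
    have : (⇑(b.symm.trans c) ∘ (![b u, b u', b w] : Fin 3 → ℕ)) =
        (![c u, c u', c w] : Fin 3 → ℕ) := by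
      funext i
      fin_cases i <;> simp
    have h2 := hy.1 u u' w
    rw [← this] at h2
    exact h2
  · obtain ⟨u, hu⟩ := b.surjective (v (0 : Fin 2))
    obtain ⟨w, hw⟩ := b.surjective (v (1 : Fin 2))
    have hv : v = (![b u, b w] : Fin 2 → ℕ) := by
      rw [hu, hw]
      funext i
      change Fin 2 at i
      fin_cases i <;> rfl
    rw [hv, Bool.eq_iff_iff, hx.2]
    have : (⇑(b.symm.trans c) ∘ (![b u, b w] : Fin 2 → ℕ)) = (![c u, c w] : Fin 2 → ℕ) := by
      funext i
      fin_cases i <;> simp
    have h2 := hy.2 r u w
    rw [← this] at h2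
    exact h2

private theorem aut_of_iso {x : Str (arity R)} {b : M ≃ ℕ} {σ : Equiv.Perm ℕ}
    (hx : IsCopy x b) (h : ∀ i v, x i (⇑σ ∘ v) = x i v) :
    ∃ g : M ≃ₗ[R] M, ∀ u, b (g u) = σ (b u) := by
  have hy := copy_of_iso hx h
  let e : M ≃ M := (b.trans σ).trans b.symm
  have he : ∀ u, b (e u) = σ (b u) := fun u => b.apply_symm_apply _
  refine ⟨{ e with
    map_add' := fun u v => ?_
    map_smul' := fun r u => ?_ }, he⟩
  · have h1 := (hy.1 u v (u + v)).2 rfl
    have h2 : x none ![b (e u), b (e v), b (e (u + v))] = true := by
      rw [he, he, he]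
      exact h1
    exact ((hx.1 _ _ _).1 h2).symm
  · have h1 := (hy.2 r u (r • u)).2 rfl
    have h2 : x (some r) ![b (e u), b (e (r • u))] = true := by
      rw [he, he]
      exact h1
    exact ((hx.2 _ _ _).1 h2).symm

private theorem iso_of_aut {x : Str (arity R)} {b : M ≃ ℕ} (hx : IsCopy x b) (g : M ≃ₗ[R] M) :
    ∀ i v, x i (⇑(b.symm.trans (g.toEquiv.trans b)) ∘ v) = x i v := by
  have hy : IsCopy (R := R) x (g.toEquiv.trans b) := by
    refine ⟨fun u v w => ?_, fun r u w => ?_⟩
    · have := hx.1 (g u) (g v) (g w)
      rw [← map_add, g.injective.eq_iff] at this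
      exact this
    · have := hx.2 r (g u) (g w)
      rw [← map_smul, g.injective.eq_iff] at this
      exact this
  exact iso_of_copy hx hy

open Classical in
private theorem exists_copy (b : M ≃ ℕ) : ∃ x : Str (arity R), IsCopy x b := by
  refine ⟨fun i v => match i with
    | none => decide (b.symm (v (0 : Fin 3)) + b.symm (v (1 : Fin 3)) = b.symm (v (2 : Fin 3)))
    | some r => decide (r • b.symm (v (0 : Fin 2)) = b.symm (v (1 : Fin 2))), ?_, ?_⟩
  · intro u v w
    simp
  · intro r u w
    simp

end

/-- **Theorem.** Let `R` be a countable principal ideal domain and `M` a countable (infinite)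
torsion `R`-module. (1) All socles `M[p]`, for primes `p`, are finitely generated if and only if
all pointwise limits of automorphisms of `M` are onto. (2) If this is the case, then the
dichotomy holds for the expansions of `M` in every countable relational language. (3) Otherwise the
expansions of `M` by two binary relations are faithfully complete, and the dichotomy for them is
equivalent to the dichotomy for all countable structures. -/
theorem result (R M : Type) [CommRing R] [IsDomain R] [IsPrincipalIdealRing R] [Countable R]
    [AddCommGroup M] [Module R M] [Countable M] [Infinite M]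
    (htors : ∀ x : M, ∃ r : R, r ≠ 0 ∧ r • x = 0) :
    (SmallSocles R M ↔ LimitsOnto R M) ∧
    (SmallSocles R M → ∀ (ι : Type) [Countable ι] (a : ι → ℕ),
      Dichotomy (ExpansionIso (R := R) (a := a)) (Expands R M)) ∧
    (¬ SmallSocles R M →
      FaithfullyComplete (ExpansionIso (R := R) (a := fun _ : Bool => 2)) (Expands R M) ∧
      (Dichotomy (ExpansionIso (R := R) (a := fun _ : Bool => 2)) (Expands R M) ↔
        ∀ b : ℕ → ℕ, Dichotomy (Iso (a := b)) (fun _ => True))) := by
  classical
  have h1 : SmallSocles R M ↔ LimitsOnto R M := Pool.Agent.H669.TM.fg_iff_onto htors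
  have hR : Infinite R := by
    rw [← not_finite_iff_infinite]
    intro hfin
    obtain ⟨x, hx⟩ := exists_ne (0 : M)
    obtain ⟨r, hr, hrx⟩ := htors x
    have hu : IsUnit r := isUnit_iff_mem_nonZeroDivisors_of_finite.2
      (mem_nonZeroDivisors_of_ne_zero hr)
    exact hx (hu.smul_eq_zero.1 hrx)
  refine ⟨h1, fun hS ι _ a => ?_, fun hS => ?_⟩
  · rw [pv]
    refine Pool.Agent.H669.TM.vcof_expS a (Expands R M) ?_
    rintro y ⟨b, hb⟩ f hf
    have h2 := h1.1 hS (fun u => b.symm (f (b u))) (fun F => by
      obtain ⟨σ, h3, h4⟩ := hf ((F.image b).sup id + 1)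
      obtain ⟨g, hg⟩ := aut_of_iso hb h3
      refine ⟨g, fun x hx => ?_⟩
      show g x = b.symm (f (b x))
      rw [← h4 (b x) (Nat.lt_succ_of_le (Finset.le_sup (f := id) (Finset.mem_image_of_mem _ hx))),
        ← hg, Equiv.symm_apply_apply])
    intro n
    obtain ⟨x, hx⟩ := h2 (b.symm n)
    exact ⟨b x, b.symm.injective hx⟩
  · have hF : Pool.Agent.W889.VC.Faithful
        (ExpansionIso (R := R) (a := fun _ : Bool => 2)) (Expands R M) := by
      unfold SmallSocles at hS
      push Not at hS
      obtain ⟨p, hp, hS⟩ := hS
      obtain ⟨b⟩ : Nonempty (M ≃ ℕ) := nonempty_equiv_of_countable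
      obtain ⟨x0, hx0⟩ := exists_copy (R := R) b
      obtain ⟨⟨col, hc1, hc2⟩, -⟩ := Pool.Agent.H669.TM.exists_both htors hp hS b
      have h2 := Pool.Agent.H669.TM.faithful_two (x0 := x0) hc1 (fun ρ => by
        obtain ⟨g, hg⟩ := hc2 ρ
        refine ⟨b.symm.trans (g.toEquiv.trans b), iso_of_aut hx0 g, fun m => ?_⟩
        obtain ⟨x, rfl⟩ := b.surjective m
        show col (b (g (b.symm (b x)))) = _
        rw [Equiv.symm_apply_apply, hg])
      refine h2.mono fun y hy => ?_
      obtain ⟨σ, hσ⟩ := hy
      exact ⟨b.trans σ, copy_of_iso hx0 hσ⟩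
    have hb : BorelSpace (Expansion R (fun _ : Bool => 2)) := by
      have h1 : BorelSpace (Str (arity R)) := inferInstance
      have h2 : BorelSpace (Str (fun _ : Bool => 2)) := inferInstance
      have h3 : SecondCountableTopology (Str (arity R)) := inferInstance
      exact @Prod.borelSpace (Str (arity R)) (Str (fun _ : Bool => 2)) _ _ _ _ _ _ ⟨Or.inl h3⟩
    refine ⟨hF, fun h b => ?_, fun h => ?_⟩
    · rw [pv] at h ⊢
      exact hF.vaught True h b
    · rw [pv]
      exact Pool.Agent.H669.TM.vcof_allS _ _ fun b => (pv _ _).1 (h b)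

end Pool.Agent.Results.MP_5607ba_lc.TorsionModules
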